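import Pool.Agent.FRK.Main2
import Pool.Agent.BT.Asm

/-! Every hyperbolic group has a torsion-free normal subgroup N with quotient of finite exponent such
that for all large odd p the subgroup generated by the p-th powers of N is free and normal. -/

namespace Pool.Agent.Results.MP_1e649a_al.FreeKernels

theorem result :
  ∀ (G : Type) [Group G],
    (∃ S : Finset G, Subgroup.closure (S : Set G) = ⊤ ∧ ∃ δ : ℕ,
      ∀ len : G → ℕ,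
        (∀ g : G, len g = sInf {n : ℕ | ∃ l : List G, l.length = n ∧
            (∀ s ∈ l, s ∈ S ∨ s⁻¹ ∈ S) ∧ l.prod = g}) →
        ∀ x y z w : G,
          min ((len (x⁻¹ * w) : ℤ) + (len (y⁻¹ * w) : ℤ) - (len (x⁻¹ * y) : ℤ))
              ((len (y⁻¹ * w) : ℤ) + (len (z⁻¹ * w) : ℤ) - (len (y⁻¹ * z) : ℤ)) - 2 * (δ : ℤ)
            ≤ (len (x⁻¹ * w) : ℤ) + (len (z⁻¹ * w) : ℤ) - (len (x⁻¹ * z) : ℤ)) →
    (∃ N : Subgroup G, N.Normal ∧ (∀ h ∈ N, h ≠ 1 → ∀ n : ℕ, 0 < n → h ^ n ≠ 1) ∧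
      ∃ e : ℕ, 0 < e ∧ ∀ g : G, g ^ e ∈ N) ∧
    (∀ N : Subgroup G, (∀ h ∈ N, h ≠ 1 → ∀ n : ℕ, 0 < n → h ^ n ≠ 1) →
      ∃ p0 : ℕ, ∀ p : ℕ, p0 ≤ p → Odd p →
        IsFreeGroup ↥(Subgroup.closure {x : G | ∃ y ∈ N, x = y ^ p})) ∧
    ∃ F : Subgroup G, F.Normal ∧ IsFreeGroup ↥F ∧
      ∃ n : ℕ, 0 < n ∧ ∀ g : G, g ^ n ∈ F := by
  intro G _ hG
  exact ⟨Pool.Agent.BT.Asm.p_TFinal G hG, fun N hN => Pool.Agent.FRK.main_odd G hG N hN,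
    Pool.Agent.BT.full Pool.Agent.BT.Asm.p_TFinal G hG⟩

end Pool.Agent.Results.MP_1e649a_al.FreeKernels
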